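import Pool.Agent.H83.Blk.Fin

/-!
Isometric block homogeneity. A normalized 1-unconditional block sequence spans `c₀` or `ℓ_q`
isometrically, or there are continuum many pairwise non-isometric block subspaces of finite
codimension in its closed span.
-/

set_option autoImplicit false

namespace Pool.Agent.Results.MP_fa49d7_an.IsometricBlockDichotomy

open Pool.Agent.H83.Blk

theorem result (X : Type) [NormedAddCommGroup X] [NormedSpace ℝ X] [CompleteSpace X]
    (e : ℕ → X) (p : ℕ → ℕ) (b : ℕ → ℝ) (hb : IsNBlk e p b) (hu : OneUnc (blk e p b)) :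
    C0orLq (blkSpan e p b) ∨
      ∃ F : ℝ → (ℕ → ℕ) × (ℕ → ℝ),
        (∀ t, IsNBlk e (F t).1 (F t).2 ∧ blkSpan e (F t).1 (F t).2 ≤ blkSpan e p b ∧
          ∃ m, ∀ k, m ≤ k → blk e p b k ∈ blkSpan e (F t).1 (F t).2) ∧
        ∀ s t, s ≠ t →
          IsEmpty (blkSpan e (F s).1 (F s).2 ≃ₗᵢ[ℝ] blkSpan e (F t).1 (F t).2) :=
  dichotomy_blk hb hu

end Pool.Agent.Results.MP_fa49d7_an.IsometricBlockDichotomy
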